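import Mathlib
import Pool.Agent.Helper69.UX.StE

/-!
Project UX (MP_e12aa9_pr), module DSM: pairs of colourings.
-/

set_option autoImplicit false

namespace Pool.Agent.Helper61.UX

open Finset Filter Pool.Agent.Helper82.CN Pool.Agent.Helper11.PV Pool.Agent.Helper69.VX
  Pool.Agent.Helper69.UX

theorem rp_add (x th ε : ℝ) (hx : 0 < x) (k : ℕ) (c : ℝ) (hc : c = k) :
    x ^ (th + c * ε) = x ^ th * (x ^ ε) ^ k := by
  rw [Real.rpow_add hx, hc, mul_comm (k : ℝ) ε, Real.rpow_mul hx.le, Real.rpow_natCast]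

theorem large_X (ε X₀ : ℝ) (hε : 0 < ε) : ∃ n1 : ℕ, ∀ n : ℕ, n1 ≤ n → X₀ ≤ (n : ℝ) ^ ε := by
  have h1 : Tendsto (fun n : ℕ => (n : ℝ) ^ ε) atTop atTop :=
    (tendsto_rpow_atTop hε).comp tendsto_natCast_atTop_atTop
  have h2 := h1.eventually (eventually_ge_atTop X₀)
  rw [eventually_atTop] at h2
  exact h2

theorem pw_nonneg {V : Type} (g : ℕ → ℝ) (hg : ∀ v, 0 ≤ g v) (Q : Finset (Finset V)) :
    0 ≤ pw g Q := by
  rw [pw]; exact Finset.prod_nonneg fun A _ => hg _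

set_option maxHeartbeats 4000000 in
open Classical in
theorem hDSM (hTIL : StTIL) (hSML : StSML) (hMID : StMID) (hNI : StNI) (hCRU : StCRU)
    (hSIZ : StSIZ) : StDSM := by
  intro p ε C C₀ hp0 hp1 hε hε1 hC hC₀
  have he2 : (0 : ℝ) < Real.exp 2 := Real.exp_pos _
  have hq0 : 0 < 1 - p := by
    have : 0 < 1 / Real.exp 2 := by positivity
    linarith
  have hp1' : p < 1 := by linarith
  obtain ⟨B, hB⟩ : ∃ B, B = 1 / (1 - p) := ⟨_, rfl⟩
  have hB0 : 0 < B := by rw [hB]; positivity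
  have hB1 : 1 < B := by
    rw [hB, lt_div_iff₀ hq0]; linarith
  have hL0 : 0 < bb p := by
    rw [bb, ← hB]; exact Real.log_pos hB1
  obtain ⟨ε₀, hε₀, hε₀1, nNI, hnNI⟩ := hNI p ε C₀ hp0 hp1 hε hε1 hC₀
  obtain ⟨J, δ, hδ, nMID, hnMID⟩ := hMID p ε C ε₀ hp0 hp1 hε hε1 hC hε₀ hε₀1
  obtain ⟨nTIL, hnTIL⟩ := hTIL p ε C hp0 hp1 hε hε1 hC
  obtain ⟨nSML, hnSML⟩ := hSML p ε hp0 hp1 hε hε1
  obtain ⟨nSIZ, hnSIZ⟩ := hSIZ p ε ε ⌈4 * (2 / bb p + δ)⌉₊ hp0 hp1 hε hε1 hε
  obtain ⟨nX, hnX⟩ := large_X ε (max 4 ((4 / p) * (3 / ε + 6))) hε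
  refine ⟨J, δ, hδ, max nNI (max nMID (max nTIL (max nSML (max nSIZ nX)))), ?_⟩
  intro n T th κ lam mu P hn hW hPar hGood
  simp only [max_le_iff] at hn
  obtain ⟨hn1, hn2, hn3, hn4, hn5, hn6⟩ := hn
  obtain ⟨-, -, -, t3, t4, -, -⟩ := hnSIZ n T th hn5 hW
  obtain ⟨-, hth, hth1⟩ := id hW
  have hT4 : 4 ≤ T := by omega
  have hT0 : (0 : ℝ) < T := by
    have : 0 < T := by omega
    exact_mod_cast this
  have hT1 : (1 : ℝ) ≤ T := by
    have : 1 ≤ T := by omega
    exact_mod_cast this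
  have hTc : 4 * (2 / bb p + δ) ≤ T := by
    refine (Nat.le_ceil _).trans ?_
    have : ⌈4 * (2 / bb p + δ)⌉₊ ≤ T := by omega
    exact_mod_cast this
  have hnr : (0 : ℝ) < n := by
    have : 0 < n := by omega
    exact_mod_cast this
  have hnr1 : (1 : ℝ) ≤ n := by
    have : 1 ≤ n := by omega
    exact_mod_cast this
  -- powers
  obtain ⟨X, hX⟩ : ∃ X : ℝ, X = (n : ℝ) ^ ε := ⟨_, rfl⟩
  obtain ⟨w, hw⟩ : ∃ w : ℝ, w = (n : ℝ) ^ th := ⟨_, rfl⟩
  have hXX := hnX n hn6
  rw [← hX] at hXX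
  have hX4 : 4 ≤ X := (le_max_left _ _).trans hXX
  have hXb : (4 / p) * (3 / ε + 6) ≤ X := (le_max_right _ _).trans hXX
  have hX0 : 0 < X := by linarith
  have hX1 : 1 ≤ X := by linarith
  have hw1 : 1 ≤ w := by
    rw [hw]; exact Real.one_le_rpow hnr1 (by linarith)
  have hw0 : 0 < w := by linarith
  have r4 : (n : ℝ) ^ (th + 4 * ε) = w * X ^ 4 := by
    rw [hw, hX]; exact rp_add _ _ _ hnr 4 4 (by norm_num)
  have r3 : (n : ℝ) ^ (th + 3 * ε) = w * X ^ 3 := by
    rw [hw, hX]; exact rp_add _ _ _ hnr 3 3 (by norm_num)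
  have r5 : (n : ℝ) ^ (th + 5 * ε) = w * X ^ 5 := by
    rw [hw, hX]; exact rp_add _ _ _ hnr 5 5 (by norm_num)
  have r6 : (n : ℝ) ^ (th + 6 * ε) = w * X ^ 6 := by
    rw [hw, hX]; exact rp_add _ _ _ hnr 6 6 (by norm_num)
  have r8 : (n : ℝ) ^ (th + 8 * ε - 1) = w * X ^ 8 / n := by
    rw [Real.rpow_sub hnr, Real.rpow_one, hw, hX]
    rw [rp_add _ _ _ hnr 8 8 (by norm_num)]
  have hwX : w * X ^ 12 ≤ n := by
    have h1 : (n : ℝ) ^ (th + 12 * ε) = w * X ^ 12 := by
      rw [hw, hX]; exact rp_add _ _ _ hnr 12 12 (by norm_num)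
    rw [← h1]
    calc (n : ℝ) ^ (th + 12 * ε) ≤ (n : ℝ) ^ (1 : ℝ) :=
          Real.rpow_le_rpow_of_exponent_le hnr1 (by linarith)
      _ = n := Real.rpow_one _
  have hTX : (T : ℝ) ≤ X := by
    calc (T : ℝ) = (T : ℝ) ^ 1 := (pow_one _).symm
      _ ≤ (T : ℝ) ^ 8 := pow_le_pow_right₀ hT1 (by norm_num)
      _ ≤ X := by rw [hX]; exact t3
  -- logarithm
  have hlog : 3 * Real.log ((n : ℝ) + 1) + 3 ≤ p / 4 * X ^ 2 := by
    have h1 : Real.log ((n : ℝ) + 1) ≤ 1 + X / ε := by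
      have h2 : Real.log ((n : ℝ) + 1) ≤ Real.log (2 * n) :=
        Real.log_le_log (by positivity) (by linarith)
      rw [Real.log_mul (by norm_num) hnr.ne'] at h2
      have h3 : Real.log (2 : ℝ) ≤ 1 := by
        have := Real.log_le_sub_one_of_pos (show (0 : ℝ) < 2 by norm_num)
        linarith
      have h4 : Real.log (n : ℝ) ≤ X / ε := by
        rw [hX]; exact Real.log_le_rpow_div hnr.le hε
      linarith
    have h2 : (3 / ε + 6) * X ≤ p / 4 * X ^ 2 := by
      have h3 : p / 4 * ((4 / p) * (3 / ε + 6)) = 3 / ε + 6 := by field_simp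
      calc (3 / ε + 6) * X = p / 4 * ((4 / p) * (3 / ε + 6)) * X := by rw [h3]
        _ ≤ p / 4 * X * X := by
          apply mul_le_mul_of_nonneg_right _ hX0.le
          exact mul_le_mul_of_nonneg_left hXb (by positivity)
        _ = p / 4 * X ^ 2 := by ring
    have h3 : 3 * (1 + X / ε) + 3 ≤ (3 / ε + 6) * X := by
      have : (3 / ε + 6) * X = 3 * (X / ε) + 6 * X := by ring
      linarith
    linarith
  have hlog0 : 0 ≤ Real.log ((n : ℝ) + 1) := Real.log_nonneg (by linarith)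
  -- the overlap weights
  obtain ⟨M, hM⟩ : ∃ M : ℝ, M = (n : ℝ) ^ (th + 6 * ε) := ⟨_, rfl⟩
  obtain ⟨t, ht⟩ : ∃ t : ℝ, t = (n : ℝ) ^ (th + 8 * ε - 1) := ⟨_, rfl⟩
  have ht0 : 0 < t := by rw [ht]; positivity
  have ht1 : t ≤ 1 := by
    rw [ht, r8, div_le_one hnr]
    refine le_trans ?_ hwX
    exact mul_le_mul_of_nonneg_left (pow_le_pow_right₀ hX1 (by norm_num)) hw0.le
  have htp : 0 ≤ 1 - t * p := by
    have : t * p ≤ 1 * 1 := mul_le_mul ht1 hp1'.le hp0.le (by norm_num)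
    linarith
  have hM1 : M = w * X ^ 6 := by rw [hM, r6]
  have hMn : M ≤ n / 2 := by
    have h1 : M * 2 ≤ w * X ^ 12 := by
      rw [hM1]
      have h2 : (2 : ℝ) ≤ X ^ 6 := by
        calc (2 : ℝ) ≤ X ^ 1 := by rw [pow_one]; linarith
          _ ≤ X ^ 6 := pow_le_pow_right₀ hX1 (by norm_num)
      calc w * X ^ 6 * 2 ≤ w * X ^ 6 * X ^ 6 :=
            mul_le_mul_of_nonneg_left h2 (by positivity)
        _ = w * X ^ 12 := by ring
    linarith
  have hM0 : 0 ≤ M := by rw [hM1]; positivity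
  obtain ⟨f, hf⟩ : ∃ f : Finset (Finset (Fin n)) → ℝ,
    f = fun Q => (1 - p) ^ inn Q * ((1 - t * p) / (1 - p)) ^ ovl P Q := ⟨_, rfl⟩
  obtain ⟨g, hg⟩ : ∃ g : Finset (Finset (Fin n)) → ℝ,
    g = fun Q => (1 - p) ^ inn Q * (1 / (1 - p)) ^ ovl P Q := ⟨_, rfl⟩
  have hf0 : ∀ Q, 0 ≤ f Q := by
    intro Q; rw [hf]; positivity
  have hg0 : ∀ Q, 0 ≤ g Q := by
    intro Q; rw [hg]; positivity
  have hfg : ∀ Q, f Q = g Q * (1 - t * p) ^ ovl P Q := by
    intro Q; rw [hf, hg]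
    simp only
    rw [div_pow, div_pow, one_pow]
    field_simp
  have htp1 : 1 - t * p ≤ 1 := by
    have : 0 ≤ t * p := by positivity
    linarith
  have hfg' : ∀ Q, f Q ≤ g Q := by
    intro Q
    rw [hfg]
    exact mul_le_of_le_one_right (hg0 Q) (pow_le_one₀ htp htp1)
  -- tools
  obtain ⟨hWt, hT2, -, -⟩ := hnTIL δ n T th κ lam mu hn3 hW hPar
  have hPP : P ∈ Pt (Fin n) := hGood.part
  have hRT : T + 1 ≤ 2 * RR ε T := by
    have h1 : (1 / 2 + ε / 2) * (T : ℝ) ≤ RR ε T := Nat.le_ceil _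
    have h2 : (T : ℝ) < 2 * (RR ε T : ℝ) := by
      have : 0 < ε * (T : ℝ) := mul_pos hε hT0
      linarith
    have h3 : T < 2 * RR ε T := by exact_mod_cast h2
    omega
  obtain ⟨hC1, hC2, hC3⟩ := hCRU n (T + 1) (RR ε T) ⌊M⌋₊ P hPP hGood.size hRT
  obtain ⟨S, hS⟩ : ∃ S : Finset (Finset (Finset (Fin n))),
    S = (QQ ε n T th κ).filter (fun Q => (n : ℝ) ^ (th + 7 * ε) < ovl P Q) := ⟨_, rfl⟩
  have hSm : ∀ Q ∈ S, Q ∈ QQ ε n T th κ ∧ (n : ℝ) ^ (th + 7 * ε) < ovl P Q := by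
    intro Q hQ; rw [hS, mem_filter] at hQ; exact hQ
  have hQm : ∀ Q ∈ QQ ε n T th κ, Q ∈ Pt (Fin n) ∧ (∀ A ∈ Q, A.card ≤ T + 1) ∧
      (Q.card : ℝ) ≤ KK T κ + (n : ℝ) ^ (th + 3 * ε) := by
    intro Q hQ
    rw [QQ, mem_filter] at hQ
    exact ⟨hQ.1, hQ.2.1, hQ.2.2.2⟩
  -- bounds with TIL
  have hgf : ∀ v, 0 ≤ gf (kD T κ) v := by
    intro v; rw [gf]; exact mul_nonneg (by positivity) (hWt.nn v)
  obtain ⟨sK, hsK⟩ : ∃ a : ℝ, a = ∑ v ∈ range (T + 2), kD T κ v := ⟨_, rfl⟩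
  obtain ⟨c0, hc0⟩ : ∃ c0 : ℝ, c0 = Real.exp ((n : ℝ) ^ (th + 4 * ε) / 2) /
    ((n.factorial : ℝ) * Real.exp sK) := ⟨_, rfl⟩
  have hnf : (0 : ℝ) < (n.factorial : ℝ) := by exact_mod_cast Nat.factorial_pos n
  have hc00 : 0 ≤ c0 := by rw [hc0]; positivity
  have hgT : ∀ Q ∈ QQ ε n T th κ, g Q ≤ c0 * (pw (gf (kD T κ)) Q * (1 / (1 - p)) ^ ovl P Q) := by
    intro Q hQ
    have h1 := hT2 Q hQ
    rw [← hsK] at h1
    rw [hg]
    simp only
    calc (1 - p) ^ inn Q * (1 / (1 - p)) ^ ovl P Q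
        ≤ Real.exp ((n : ℝ) ^ (th + 4 * ε) / 2) * pw (gf (kD T κ)) Q /
            ((n.factorial : ℝ) * Real.exp sK) * (1 / (1 - p)) ^ ovl P Q :=
          mul_le_mul_of_nonneg_right h1 (by positivity)
      _ = _ := by rw [hc0]; ring
  have hpwn : ∀ Q : Finset (Finset (Fin n)),
      0 ≤ pw (gf (kD T κ)) Q * (1 / (1 - p)) ^ ovl P Q := fun Q =>
    mul_nonneg (pw_nonneg _ hgf Q) (by positivity)
  have hexp01 : c0 * ((n.factorial : ℝ) * Real.exp (sK - M)) = Real.exp (w * X ^ 4 / 2 - M) := by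
    rw [hc0, Real.exp_sub, Real.exp_sub, r4]
    field_simp
  -- piece 0
  have hP0 : ∑ Q ∈ S.filter (fun Q => ((bigS (RR ε T) P Q).card : ℝ) ≤ M), f Q ≤
      Real.exp (w * X ^ 4 / 2 - M) := by
    have h1 := hnSML n T th (kD T κ) P hn4 hW hWt hPP hGood.size
    rw [← hsK, ← hM] at h1
    calc ∑ Q ∈ S.filter (fun Q => ((bigS (RR ε T) P Q).card : ℝ) ≤ M), f Q
        ≤ ∑ Q ∈ S.filter (fun Q => ((bigS (RR ε T) P Q).card : ℝ) ≤ M),
            c0 * (pw (gf (kD T κ)) Q * (1 / (1 - p)) ^ ovl P Q) := by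
          apply Finset.sum_le_sum
          intro Q hQ
          rw [mem_filter] at hQ
          exact (hfg' Q).trans (hgT Q (hSm Q hQ.1).1)
      _ = c0 * ∑ Q ∈ S.filter (fun Q => ((bigS (RR ε T) P Q).card : ℝ) ≤ M),
            pw (gf (kD T κ)) Q * (1 / (1 - p)) ^ ovl P Q := by rw [Finset.mul_sum]
      _ ≤ c0 * ((n.factorial : ℝ) * Real.exp (sK - M)) := by
          apply mul_le_mul_of_nonneg_left _ hc00
          refine le_trans ?_ h1
          apply Finset.sum_le_sum_of_subset_of_nonneg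
          · intro Q hQ
            rw [mem_filter] at hQ
            rw [mem_filter]
            exact ⟨(hQm Q (hSm Q hQ.1).1).1, hQ.2, (hSm Q hQ.1).2⟩
          · intro Q _ _
            exact hpwn Q
      _ = _ := hexp01
  -- piece 1
  have hs0 : (0 : ℝ) ≤ (n : ℝ) ^ (th + 5 * ε) := by positivity
  have hP1 : ∑ Q ∈ S.filter (fun Q => M ≤ (bigS (RR ε T) P Q).card ∧
      ((bigS (RR ε T) P Q).card : ℝ) ≤ (1 - ε₀) * P.card), f Q ≤
      Real.exp (w * X ^ 4 / 2 - M) := by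
    have h1 := hnMID C₀ ((n : ℝ) ^ (th + 5 * ε)) M n T th κ (kD T κ) lam mu P hn2 hW hPar hGood
      hs0 (Real.rpow_le_rpow_of_exponent_le hnr1 (by linarith)) hWt (by
        rw [hM]; exact Real.rpow_le_rpow_of_exponent_le hnr1 (by linarith))
    rw [← hsK] at h1
    calc ∑ Q ∈ S.filter (fun Q => M ≤ (bigS (RR ε T) P Q).card ∧
          ((bigS (RR ε T) P Q).card : ℝ) ≤ (1 - ε₀) * P.card), f Q
        ≤ ∑ Q ∈ S.filter (fun Q => M ≤ (bigS (RR ε T) P Q).card ∧
          ((bigS (RR ε T) P Q).card : ℝ) ≤ (1 - ε₀) * P.card),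
            c0 * (pw (gf (kD T κ)) Q * (1 / (1 - p)) ^ ovl P Q) := by
          apply Finset.sum_le_sum
          intro Q hQ
          rw [mem_filter] at hQ
          exact (hfg' Q).trans (hgT Q (hSm Q hQ.1).1)
      _ = c0 * ∑ Q ∈ S.filter (fun Q => M ≤ (bigS (RR ε T) P Q).card ∧
          ((bigS (RR ε T) P Q).card : ℝ) ≤ (1 - ε₀) * P.card),
            pw (gf (kD T κ)) Q * (1 / (1 - p)) ^ ovl P Q := by rw [Finset.mul_sum]
      _ ≤ c0 * ((n.factorial : ℝ) * Real.exp (sK - M)) := by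
          apply mul_le_mul_of_nonneg_left _ hc00
          refine le_trans ?_ h1
          apply Finset.sum_le_sum_of_subset_of_nonneg
          · intro Q hQ
            rw [mem_filter] at hQ
            rw [mem_filter]
            exact ⟨(hQm Q (hSm Q hQ.1).1).1, hQ.2⟩
          · intro Q _ _
            exact hpwn Q
      _ = _ := hexp01
  -- the condition for NI
  have hKK0 : 0 ≤ KK T κ := by
    have h1 := (abs_nonneg _).trans hPar.mean
    exact nonneg_of_mul_nonneg_right h1 hδ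
  have hKT : KK T κ * T * (3 / 4) ≤ n := by
    have h1 := (abs_le.1 hPar.mean).2
    have h2 : ∑ u ∈ range (T + 1), ((T : ℝ) - u) * κ u = T * KK T κ - n := by
      rw [← hPar.sum, KK, Finset.mul_sum, ← Finset.sum_sub_distrib]
      apply Finset.sum_congr rfl
      intro u _
      ring
    rw [h2] at h1
    have h3 : (2 / bb p - th + δ) * KK T κ ≤ T / 4 * KK T κ :=
      mul_le_mul_of_nonneg_right (by linarith) hKK0
    linarith
  have hsT : (n : ℝ) ^ (th + 5 * ε) * T ≤ n / 2 := by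
    rw [r5]
    have h1 : w * X ^ 5 * T * 2 ≤ w * X ^ 12 := by
      calc w * X ^ 5 * T * 2 ≤ w * X ^ 5 * X * X := by
            apply mul_le_mul _ (by linarith) (by norm_num) (by positivity)
            exact mul_le_mul_of_nonneg_left hTX (by positivity)
        _ = w * X ^ 7 := by ring
        _ ≤ w * X ^ 12 :=
          mul_le_mul_of_nonneg_left (pow_le_pow_right₀ hX1 (by norm_num)) hw0.le
    linarith
  have hPT : (P.card : ℝ) * T ≤ 2 * n := by
    have h1 := mul_le_mul_of_nonneg_right hGood.num2 hT0.le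
    linarith
  have hSml : Sml p C₀ (2 * (n : ℝ) ^ (th + 5 * ε)) (KK T κ) n T P := by
    refine ⟨hPP, hGood.size, hKK0, by linarith [mul_nonneg hKK0 hT0.le], hPT, ?_⟩
    intro h hh
    refine (hGood.small h hh).trans ?_
    apply mul_le_mul_of_nonneg_left _ (by linarith)
    linarith
  -- piece 2
  have hP2 : ∑ Q ∈ S.filter (fun Q => (1 - ε₀) * P.card < (bigS (RR ε T) P Q).card ∧
      M ≤ NR (RR ε T) P Q), f Q ≤ ((n : ℝ) + 1) * Real.exp (-M) := by
    obtain ⟨S2, hS2⟩ : ∃ S2, S2 = S.filter (fun Q =>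
      (1 - ε₀) * P.card < (bigS (RR ε T) P Q).card ∧ M ≤ NR (RR ε T) P Q) := ⟨_, rfl⟩
    rw [← hS2]
    have hmaps : ∀ Q ∈ S2, NR (RR ε T) P Q ∈ range (n + 1) := by
      intro Q hQ
      rw [hS2, mem_filter] at hQ
      rw [mem_range]
      have := (hC3 Q (hQm Q (hSm Q hQ.1).1).1).2.2.2
      omega
    calc ∑ Q ∈ S2, f Q ≤ ∑ Q ∈ S2, g Q := Finset.sum_le_sum fun Q _ => hfg' Q
      _ = ∑ N ∈ range (n + 1), ∑ Q ∈ S2.filter (fun Q => NR (RR ε T) P Q = N), g Q :=
          (Finset.sum_fiberwise_of_maps_to hmaps _).symm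
      _ ≤ ∑ N ∈ range (n + 1), Real.exp (-M) := by
          apply Finset.sum_le_sum
          intro N _
          rcases le_or_gt M N with hMN | hMN
          · have h1 := hnNI n T N th (2 * (n : ℝ) ^ (th + 5 * ε)) (KK T κ) P hn1 hW hSml
              (by positivity) (by
                refine le_trans ?_ hMN
                have hXh : (n : ℝ) ^ (ε / 2) * (n : ℝ) ^ (ε / 2) = X := by
                  rw [← Real.rpow_add hnr, hX]; congr 1; ring
                have hXh2 : 2 ≤ (n : ℝ) ^ (ε / 2) := by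
                  have h0 : 0 < (n : ℝ) ^ (ε / 2) := by positivity
                  by_contra hcon
                  push Not at hcon
                  have h00 := mul_lt_mul'' hcon hcon h0.le h0.le
                  linarith
                rw [r5, hM1]
                calc 2 * (w * X ^ 5) * (n : ℝ) ^ (ε / 2)
                    = w * X ^ 5 * (2 * (n : ℝ) ^ (ε / 2)) := by ring
                  _ ≤ w * X ^ 5 * ((n : ℝ) ^ (ε / 2) * (n : ℝ) ^ (ε / 2)) := by
                    apply mul_le_mul_of_nonneg_left _ (by positivity)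
                    exact mul_le_mul_of_nonneg_right hXh2 (by positivity)
                  _ = w * X ^ 6 := by rw [hXh]; ring) (by
                refine le_trans ?_ hMN
                rw [hM]; exact Real.rpow_le_rpow_of_exponent_le hnr1 (by linarith))
            calc ∑ Q ∈ S2.filter (fun Q => NR (RR ε T) P Q = N), g Q
                ≤ ∑ Q ∈ (Pt (Fin n)).filter (fun Q => (∀ B ∈ Q, B.card ≤ T + 1) ∧
                  (Q.card : ℝ) ≤ P.card + 2 * (n : ℝ) ^ (th + 5 * ε) ∧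
                  (1 - ε₀) * P.card < (bigS (RR ε T) P Q).card ∧ NR (RR ε T) P Q = N), g Q := by
                  apply Finset.sum_le_sum_of_subset_of_nonneg
                  · intro Q hQ
                    rw [mem_filter, hS2, mem_filter] at hQ
                    obtain ⟨⟨hQ1, hQ2, hQ3⟩, hQ4⟩ := hQ
                    obtain ⟨q1, q2, q3⟩ := hQm Q (hSm Q hQ1).1
                    rw [mem_filter]
                    refine ⟨q1, q2, ?_, hQ2, hQ4⟩
                    have h2 := hGood.num1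
                    have h3 : (n : ℝ) ^ (th + 3 * ε) ≤ (n : ℝ) ^ (th + 5 * ε) :=
                      Real.rpow_le_rpow_of_exponent_le hnr1 (by linarith)
                    linarith
                  · intro Q _ _
                    exact hg0 Q
              _ ≤ Real.exp (-(N : ℝ)) := by rw [hg]; exact h1
              _ ≤ Real.exp (-M) := Real.exp_le_exp.2 (by linarith)
          · have h1 : S2.filter (fun Q => NR (RR ε T) P Q = N) = ∅ := by
              apply Finset.filter_eq_empty_iff.2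
              intro Q hQ hQN
              rw [hS2, mem_filter] at hQ
              rw [hQN] at hQ
              linarith [hQ.2.2]
            rw [h1, Finset.sum_empty]
            exact (Real.exp_pos _).le
      _ = ((n : ℝ) + 1) * Real.exp (-M) := by
          rw [Finset.sum_const, card_range, nsmul_eq_mul]; push_cast; ring
  -- piece 3
  have hP3 : ∑ Q ∈ S.filter (fun Q => (1 - ε₀) * P.card < (bigS (RR ε T) P Q).card ∧
      (NR (RR ε T) P Q : ℝ) < M), f Q ≤
      Real.exp (3 * M * Real.log ((n : ℝ) + 1) - p / 4 * (w * X ^ 8)) := by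
    obtain ⟨S3, hS3⟩ : ∃ S3, S3 = S.filter (fun Q =>
      (1 - ε₀) * P.card < (bigS (RR ε T) P Q).card ∧ (NR (RR ε T) P Q : ℝ) < M) := ⟨_, rfl⟩
    rw [← hS3]
    have hcard : (S3.card : ℝ) ≤ Real.exp (3 * M * Real.log ((n : ℝ) + 1)) := by
      have h1 : S3.card ≤ (n + 1) ^ (3 * ⌊M⌋₊) := by
        refine le_trans (Finset.card_le_card ?_) hC1
        intro Q hQ
        rw [hS3, mem_filter] at hQ
        obtain ⟨hQ1, -, hQ3⟩ := hQ
        obtain ⟨q1, q2, q3⟩ := hQm Q (hSm Q hQ1).1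
        rw [mem_filter]
        exact ⟨q1, q2, Nat.le_floor hQ3.le⟩
      have h2 : (S3.card : ℝ) ≤ ((n : ℝ) + 1) ^ (3 * ⌊M⌋₊) := by exact_mod_cast h1
      refine h2.trans ?_
      have h3 : ((n : ℝ) + 1) ^ (3 * ⌊M⌋₊) =
          Real.exp ((3 * ⌊M⌋₊ : ℕ) * Real.log ((n : ℝ) + 1)) := by
        rw [Real.exp_nat_mul, Real.exp_log (by positivity)]
      rw [h3]
      apply Real.exp_le_exp.2
      apply mul_le_mul_of_nonneg_right _ hlog0
      push_cast
      have := Nat.floor_le hM0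
      linarith
    have hval : ∀ Q ∈ S3, f Q ≤ Real.exp (-(p / 4 * (w * X ^ 8))) := by
      intro Q hQ
      rw [hS3, mem_filter] at hQ
      obtain ⟨hQ1, -, hQ3⟩ := hQ
      obtain ⟨q1, q2, q3⟩ := hQm Q (hSm Q hQ1).1
      have h1 := hC2 Q q1
      obtain ⟨c1, c2, c3, c4⟩ := hC3 Q q1
      have hg1 : g Q ≤ 1 := by
        rw [hg]
        simp only
        obtain ⟨k, hk⟩ := Nat.exists_eq_add_of_le c1
        rw [hk, pow_add, one_div, inv_pow]
        have h2 : (1 - p) ^ ovl P Q * (1 - p) ^ k * ((1 - p) ^ ovl P Q)⁻¹ = (1 - p) ^ k := by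
          field_simp
        rw [h2]
        exact pow_le_one₀ hq0.le (by linarith)
      have hR1 : 1 ≤ RR ε T := by omega
      have hov : (n : ℝ) / 4 ≤ ovl P Q := by
        have h2 : (n - NR (RR ε T) P Q) * 1 ≤ 2 * ovl P Q :=
          (Nat.mul_le_mul_left _ hR1).trans h1
        have h3 : n ≤ 2 * ovl P Q + NR (RR ε T) P Q := by omega
        have h4 : (n : ℝ) ≤ 2 * (ovl P Q : ℝ) + NR (RR ε T) P Q := by exact_mod_cast h3
        linarith
      calc f Q = g Q * (1 - t * p) ^ ovl P Q := hfg Q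
        _ ≤ 1 * (1 - t * p) ^ ovl P Q := mul_le_mul_of_nonneg_right hg1 (by positivity)
        _ ≤ Real.exp (-(t * p)) ^ ovl P Q := by
          rw [one_mul]
          apply pow_le_pow_left₀ htp
          have := Real.add_one_le_exp (-(t * p))
          linarith
        _ = Real.exp (ovl P Q * (-(t * p))) := by rw [Real.exp_nat_mul]
        _ ≤ Real.exp (-(p / 4 * (w * X ^ 8))) := by
          apply Real.exp_le_exp.2
          have h2 : t * n = w * X ^ 8 := by
            rw [ht, r8]; field_simp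
          rw [← h2]
          have h3 : (n : ℝ) / 4 * (t * p) ≤ ovl P Q * (t * p) :=
            mul_le_mul_of_nonneg_right hov (by positivity)
          linarith
    calc ∑ Q ∈ S3, f Q ≤ ∑ Q ∈ S3, Real.exp (-(p / 4 * (w * X ^ 8))) :=
          Finset.sum_le_sum hval
      _ = S3.card * Real.exp (-(p / 4 * (w * X ^ 8))) := by
          rw [Finset.sum_const, nsmul_eq_mul]
      _ ≤ Real.exp (3 * M * Real.log ((n : ℝ) + 1)) * Real.exp (-(p / 4 * (w * X ^ 8))) :=
          mul_le_mul_of_nonneg_right hcard (Real.exp_pos _).le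
      _ = _ := by rw [← Real.exp_add]; congr 1
  -- the sum
  have hsplit : ∑ Q ∈ S, f Q ≤
      ∑ Q ∈ S.filter (fun Q => ((bigS (RR ε T) P Q).card : ℝ) ≤ M), f Q +
      ∑ Q ∈ S.filter (fun Q => M ≤ (bigS (RR ε T) P Q).card ∧
        ((bigS (RR ε T) P Q).card : ℝ) ≤ (1 - ε₀) * P.card), f Q +
      ∑ Q ∈ S.filter (fun Q => (1 - ε₀) * P.card < (bigS (RR ε T) P Q).card ∧
        M ≤ NR (RR ε T) P Q), f Q +
      ∑ Q ∈ S.filter (fun Q => (1 - ε₀) * P.card < (bigS (RR ε T) P Q).card ∧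
        (NR (RR ε T) P Q : ℝ) < M), f Q := by
    rw [Finset.sum_filter, Finset.sum_filter, Finset.sum_filter, Finset.sum_filter,
      ← Finset.sum_add_distrib, ← Finset.sum_add_distrib, ← Finset.sum_add_distrib]
    apply Finset.sum_le_sum
    intro Q _
    have h0 := hf0 Q
    by_cases c1 : ((bigS (RR ε T) P Q).card : ℝ) ≤ M
    · rw [if_pos c1]
      have : ∀ (q : Prop) [Decidable q], 0 ≤ (if q then f Q else 0) := by
        intro q _; split_ifs <;> first | exact h0 | exact le_rfl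
      have e1 := this (M ≤ (bigS (RR ε T) P Q).card ∧
        ((bigS (RR ε T) P Q).card : ℝ) ≤ (1 - ε₀) * P.card)
      have e2 := this ((1 - ε₀) * P.card < (bigS (RR ε T) P Q).card ∧ M ≤ NR (RR ε T) P Q)
      have e3 := this ((1 - ε₀) * P.card < (bigS (RR ε T) P Q).card ∧
        (NR (RR ε T) P Q : ℝ) < M)
      linarith
    · push Not at c1
      by_cases c2 : ((bigS (RR ε T) P Q).card : ℝ) ≤ (1 - ε₀) * P.card
      · rw [if_neg (not_le.2 c1), if_pos ⟨c1.le, c2⟩, if_neg (fun h => absurd h.1 (not_lt.2 c2)),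
          if_neg (fun h => absurd h.1 (not_lt.2 c2))]
        linarith
      · push Not at c2
        rcases le_or_gt M (NR (RR ε T) P Q) with c3 | c3
        · rw [if_neg (not_le.2 c1), if_neg (fun h => absurd h.2 (not_le.2 c2)), if_pos ⟨c2, c3⟩,
            if_neg (fun h => absurd h.2 (not_lt.2 c3))]
          linarith
        · rw [if_neg (not_le.2 c1), if_neg (fun h => absurd h.2 (not_le.2 c2)),
            if_neg (fun h => absurd h.2 (not_le.2 c3)), if_pos ⟨c2, c3⟩]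
          linarith
  -- the numbers
  obtain ⟨Y, hY⟩ : ∃ Y : ℝ, Y = w * X ^ 5 := ⟨_, rfl⟩
  have hY1 : 1 ≤ Y := by
    rw [hY]
    calc (1 : ℝ) = 1 * 1 := by norm_num
      _ ≤ w * X ^ 5 := mul_le_mul hw1 (one_le_pow₀ hX1) (by norm_num) hw0.le
  have hMY : M = Y * X := by rw [hM1, hY]; ring
  have hYX : Y * 4 ≤ Y * X := mul_le_mul_of_nonneg_left hX4 (by linarith)
  have hl4 : Real.log 4 ≤ 2 := by
    have h1 : Real.log (4 : ℝ) = 2 * Real.log 2 := by
      rw [show (4 : ℝ) = 2 ^ 2 by norm_num, Real.log_pow]; norm_num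
    have h2 := Real.log_two_lt_d9
    linarith
  have h14 : ∀ a : ℝ, a ≤ -Y - 2 → Real.exp a ≤ Real.exp (-Y) / 4 := by
    intro a ha
    have h1 : Real.exp (-Y) / 4 = Real.exp (-Y - Real.log 4) := by
      rw [Real.exp_sub, Real.exp_log (by norm_num)]
    rw [h1]
    apply Real.exp_le_exp.2
    linarith
  have e0 : Real.exp (w * X ^ 4 / 2 - M) ≤ Real.exp (-Y) / 4 := by
    apply h14
    have h1 : w * X ^ 4 ≤ Y := by
      rw [hY]
      exact mul_le_mul_of_nonneg_left (pow_le_pow_right₀ hX1 (by norm_num)) hw0.le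
    rw [hMY]
    linarith
  have e2 : ((n : ℝ) + 1) * Real.exp (-M) ≤ Real.exp (-Y) / 4 := by
    have h1 : ((n : ℝ) + 1) * Real.exp (-M) = Real.exp (Real.log ((n : ℝ) + 1) - M) := by
      rw [Real.exp_sub, Real.exp_log (by positivity), Real.exp_neg]; ring
    rw [h1]
    apply h14
    have h2 : Real.log ((n : ℝ) + 1) ≤ Y := by
      have h3 : p / 4 * X ^ 2 ≤ X ^ 2 := mul_le_of_le_one_left (sq_nonneg X) (by linarith)
      have h4 : X ^ 2 ≤ Y := by
        rw [hY]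
        calc X ^ 2 ≤ X ^ 5 := pow_le_pow_right₀ hX1 (by norm_num)
          _ = 1 * X ^ 5 := (one_mul _).symm
          _ ≤ w * X ^ 5 := mul_le_mul_of_nonneg_right hw1 (by positivity)
      linarith
    rw [hMY]
    linarith
  have e3 : Real.exp (3 * M * Real.log ((n : ℝ) + 1) - p / 4 * (w * X ^ 8)) ≤
      Real.exp (-Y) / 4 := by
    apply h14
    have h1 : M * (3 * Real.log ((n : ℝ) + 1) + 3) ≤ M * (p / 4 * X ^ 2) :=
      mul_le_mul_of_nonneg_left hlog hM0
    have h2 : M * (p / 4 * X ^ 2) = p / 4 * (w * X ^ 8) := by rw [hM1]; ring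
    have h3 : Y * 4 ≤ M := by rw [hMY]; exact hYX
    linarith
  have hfin : ∑ Q ∈ S, f Q ≤ Real.exp (-Y) := by
    linarith
  rw [r5, ← hY]
  rw [hS, hf, ht] at hfin
  exact hfin

end Pool.Agent.Helper61.UX
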