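import Mathlib
import Pool.Agent.Helper69.UX.StD

/-!
Project UX (MP_e12aa9_pr), module NIS: the factor of a matched class.
-/

set_option autoImplicit false

namespace Pool.Agent.Helper61.UX

open Finset Filter Pool.Agent.Helper82.CN Pool.Agent.Helper11.PV Pool.Agent.Helper69.VX
  Pool.Agent.Helper69.UX

theorem geo_le (q : ℝ) (h0 : 0 ≤ q) (h1 : q ≤ 1 / 2) (R c : ℕ) :
    ∑ r ∈ Ioc R c, q ^ (c - r) ≤ 1 + 2 * q := by
  induction c with
  | zero => simp; linarith
  | succ c ih =>
    rcases le_or_gt (c + 1) R with h | h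
    · rw [Ioc_eq_empty (by omega)]; simp; linarith
    · rw [Finset.sum_Ioc_succ_top (by omega)]
      have e : ∑ r ∈ Ioc R c, q ^ (c + 1 - r) = q * ∑ r ∈ Ioc R c, q ^ (c - r) := by
        rw [Finset.mul_sum]
        apply Finset.sum_congr rfl
        intro r hr
        rw [mem_Ioc] at hr
        rw [show c + 1 - r = (c - r) + 1 by omega, pow_succ]; ring
      rw [e, Nat.sub_self, pow_zero]
      nlinarith [mul_le_mul_of_nonneg_left ih h0]

theorem choose_two_add (r d : ℕ) : (r + d).choose 2 = r.choose 2 + r * d + d.choose 2 := by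
  have h : (((r + d).choose 2 : ℕ) : ℝ) = ((r.choose 2 + r * d + d.choose 2 : ℕ) : ℝ) := by
    push_cast [Nat.cast_choose_two]
    ring
  exact_mod_cast h

theorem hNIS (hSIZ : StSIZ) : StNIS := by
  intro p ε hp0 hp1 hε hε1
  obtain ⟨n0, hn0⟩ := hSIZ p ε (ε / 2) 0 hp0 hp1 hε hε1 (by positivity)
  refine ⟨n0, ?_⟩
  intro n T N c th a hn hW ha0 ha1 hc hN1 hNn
  obtain ⟨-, t1, t2, t3, t4, -, -⟩ := hn0 n T th hn hW
  have he2 : (0 : ℝ) < Real.exp 2 := Real.exp_pos _
  have hq0 : 0 < 1 - p := by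
    have : 0 < 1 / Real.exp 2 := by positivity
    linarith
  obtain ⟨B, hB⟩ : ∃ B, B = 1 / (1 - p) := ⟨_, rfl⟩
  obtain ⟨L, hL⟩ : ∃ L, L = bb p := ⟨_, rfl⟩
  have hB0 : 0 < B := by rw [hB]; positivity
  have hB1 : 1 < B := by
    rw [hB, lt_div_iff₀ hq0]; linarith
  have hBL : Real.exp L = B := by
    rw [hL, bb, ← hB, Real.exp_log hB0]
  have hL0 : 0 < L := by
    rw [hL, bb, ← hB]; exact Real.log_pos hB1
  have hT4 : 4 ≤ T := by omega
  have hT0 : (0 : ℝ) < T := by
    have : 0 < T := by omega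
    exact_mod_cast this
  have hT1 : (1 : ℝ) ≤ T := by
    have : 1 ≤ T := by omega
    exact_mod_cast this
  have hn8 : 8 ≤ n := by omega
  have hnr : (0 : ℝ) < n := by
    have : 0 < n := by omega
    exact_mod_cast this
  have hNr : (0 : ℝ) < N := by exact_mod_cast hN1
  obtain ⟨lam, hlam⟩ : ∃ l, l = Real.log (n : ℝ) := ⟨_, rfl⟩
  have hexl : Real.exp lam = n := by rw [hlam, Real.exp_log hnr]
  have hexT : Real.exp (Real.log T) = T := Real.exp_log hT0
  have hlam0 : 0 < lam := by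
    rw [hlam]; apply Real.log_pos
    have : 1 < n := by omega
    exact_mod_cast this
  have hlT : 2 * Real.log 2 ≤ Real.log T := by
    have h1 : Real.log ((4 : ℝ)) ≤ Real.log T := by
      apply Real.log_le_log (by norm_num)
      exact_mod_cast hT4
    have h2 : Real.log (4 : ℝ) = 2 * Real.log 2 := by
      rw [show (4 : ℝ) = 2 ^ 2 by norm_num, Real.log_pow]; norm_num
    linarith
  have h8 : 8 * Real.log T ≤ ε / 2 * lam := by
    have h1 := Real.log_le_log (by positivity) t3
    rw [Real.log_pow, Real.log_rpow hnr] at h1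
    rw [hlam]
    push_cast at h1
    exact h1
  rw [← hL, ← hlam] at t1 t2
  obtain ⟨R, hR⟩ : ∃ R, R = RR ε T := ⟨_, rfl⟩
  have hRT : (1 / 2 + ε / 2) * (T : ℝ) ≤ R := by
    rw [hR]; exact Nat.le_ceil _
  obtain ⟨z, hz⟩ : ∃ z : ℝ, z = (T : ℝ) * (n : ℝ) ^ (a - 1) := ⟨_, rfl⟩
  obtain ⟨x, hx⟩ : ∃ x : ℝ, x = xi n T N := ⟨_, rfl⟩
  have hx0 : 0 < x := by rw [hx, xi]; positivity
  have hz0 : 0 < z := by rw [hz]; positivity
  have hl2 : 0 < Real.log 2 := Real.log_pos (by norm_num)
  -- the ratio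
  have hqd : ∀ d : ℕ, d + R ≤ T → ((T : ℝ) + 1) * z * B ^ d ≤ 1 / 2 := by
    intro d hd
    have hd' : (d : ℝ) + R ≤ T := by exact_mod_cast hd
    have h1 : L * d ≤ (1 - ε + ε / 4) * lam := by
      have h2 : L * T ≤ (2 + ε / 2) * lam := by
        have := (abs_le.1 t1).2
        linarith
      have h3 : (d : ℝ) ≤ (1 / 2 - ε / 2) * T := by linarith
      calc L * d ≤ L * ((1 / 2 - ε / 2) * T) := mul_le_mul_of_nonneg_left h3 hL0.le
        _ = (1 / 2 - ε / 2) * (L * T) := by ring
        _ ≤ (1 / 2 - ε / 2) * ((2 + ε / 2) * lam) :=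
          mul_le_mul_of_nonneg_left h2 (by linarith)
        _ = (1 - ε + ε / 4) * lam - ε ^ 2 / 4 * lam := by ring
        _ ≤ (1 - ε + ε / 4) * lam := by
          have : 0 ≤ ε ^ 2 / 4 * lam := by positivity
          linarith
    have h2 : B ^ d = Real.exp (L * d) := by
      rw [← hBL, ← Real.exp_nat_mul]; ring_nf
    have h3 : (n : ℝ) ^ (a - 1) = Real.exp ((a - 1) * lam) := by
      rw [Real.rpow_def_of_pos hnr, hlam]; ring_nf
    have h4 : ((T : ℝ) + 1) * z * B ^ d ≤ 2 * (T * (T * (n : ℝ) ^ (a - 1)) * B ^ d) := by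
      rw [hz]
      have : 0 ≤ (T * (n : ℝ) ^ (a - 1)) * B ^ d := by positivity
      nlinarith
    have h5 : (T : ℝ) * (T * (n : ℝ) ^ (a - 1)) * B ^ d
        = Real.exp (Real.log T + (Real.log T + (a - 1) * lam) + L * d) := by
      rw [Real.exp_add, Real.exp_add, Real.exp_add, hexT, h2, h3]
    have h6 : Real.log T + (Real.log T + (a - 1) * lam) + L * d ≤ -(2 * Real.log 2) := by
      have h7 : a * lam ≤ ε / 4 * lam := mul_le_mul_of_nonneg_right ha1 hlam0.le
      nlinarith
    have h7 : Real.exp (-(2 * Real.log 2)) = 1 / 4 := by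
      rw [show -(2 * Real.log 2) = Real.log (1 / 4) by
        rw [show (1 / 4 : ℝ) = (2 ^ 2)⁻¹ by norm_num, Real.log_inv, Real.log_pow]; norm_num]
      exact Real.exp_log (by norm_num)
    have h8 := Real.exp_le_exp.2 h6
    rw [h7, ← h5] at h8
    linarith
  -- the base
  obtain ⟨y, hy⟩ : ∃ y : ℝ, y = Real.exp 3 * N * T / n := ⟨_, rfl⟩
  have hy0 : 0 < y := by rw [hy]; positivity
  have hBT : 1 / B ^ T ≤ Real.exp 3 * (T : ℝ) ^ 2 / (n : ℝ) ^ 2 := by
    have h1 : B ^ T = Real.exp (L * T) := by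
      rw [← hBL, ← Real.exp_nat_mul]; ring_nf
    have h2 : Real.exp 3 * (T : ℝ) ^ 2 / (n : ℝ) ^ 2
        = Real.exp (3 + 2 * Real.log T - 2 * lam) := by
      rw [Real.exp_sub, Real.exp_add, show 2 * Real.log T = Real.log T + Real.log T by ring,
        show 2 * lam = lam + lam by ring, Real.exp_add, Real.exp_add, hexT, hexl]
      ring
    rw [h1, h2, one_div, ← Real.exp_neg]
    apply Real.exp_le_exp.2
    have := (abs_le.1 t2).1
    linarith
  have hxB : x / B ^ c ≤ y * B ^ (T - c) := by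
    have h1 : x / B ^ T ≤ y := by
      calc x / B ^ T = x * (1 / B ^ T) := by ring
        _ ≤ x * (Real.exp 3 * (T : ℝ) ^ 2 / (n : ℝ) ^ 2) :=
          mul_le_mul_of_nonneg_left hBT hx0.le
        _ = y := by rw [hx, xi, hy]; field_simp
    rcases le_or_gt c T with h | h
    · have e : B ^ T = B ^ c * B ^ (T - c) := by
        rw [← pow_add]; congr 1; omega
      have h2 : x / B ^ c = x / B ^ T * B ^ (T - c) := by
        rw [e]; field_simp
      rw [h2]
      exact mul_le_mul_of_nonneg_right h1 (by positivity)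
    · have hcT : c = T + 1 := by omega
      rw [hcT, show T - (T + 1) = 0 by omega, pow_zero, mul_one]
      refine le_trans ?_ h1
      apply div_le_div_of_nonneg_left hx0.le (by positivity)
      exact pow_le_pow_right₀ hB1.le (by omega)
  -- the sum
  have hSF : SF p a n T (RR ε T) N c = ∑ r ∈ Ioc R c, ∑ v ∈ Icc r (T + 1),
      (c.choose r : ℝ) * z ^ (c - r) * x ^ (v - r) * B ^ (r.choose 2) / B ^ (v.choose 2) /
        ((v - r).factorial : ℝ) := by
    rw [SF, hR, hB, hz, hx]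
  have hnn : 0 ≤ SF p a n T (RR ε T) N c := by
    rw [hSF]
    apply Finset.sum_nonneg
    intro r _
    apply Finset.sum_nonneg
    intro v _
    positivity
  refine ⟨hnn, ?_⟩
  obtain ⟨s, hs⟩ : ∃ s : ℕ → ℝ, s = fun d => (x / B ^ c) ^ d / B ^ (d.choose 2) := ⟨_, rfl⟩
  have hs0 : ∀ d, 0 ≤ s d := by
    intro d; rw [hs]; positivity
  have hterm : ∀ r, r ≤ c → ∀ d : ℕ,
      (c.choose r : ℝ) * z ^ (c - r) * x ^ d * B ^ (r.choose 2) / B ^ ((r + d).choose 2) /
        (d.factorial : ℝ) ≤ (((T : ℝ) + 1) * z * B ^ d) ^ (c - r) * s d := by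
    intro r hr d
    have h1 : (c.choose r : ℝ) ≤ ((T : ℝ) + 1) ^ (c - r) := by
      rw [← Nat.choose_symm hr]
      have h2 : c.choose (c - r) ≤ c ^ (c - r) := Nat.choose_le_pow _ _
      have h3 : c ^ (c - r) ≤ (T + 1) ^ (c - r) := Nat.pow_le_pow_left hc _
      exact_mod_cast h2.trans h3
    have h2 : (1 : ℝ) ≤ (d.factorial : ℝ) := by exact_mod_cast Nat.factorial_pos d
    have h3 : (c.choose r : ℝ) * z ^ (c - r) * x ^ d * B ^ (r.choose 2) / B ^ ((r + d).choose 2) /
        (d.factorial : ℝ) ≤ (c.choose r : ℝ) * z ^ (c - r) * x ^ d * B ^ (r.choose 2) /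
          B ^ ((r + d).choose 2) := div_le_self (by positivity) h2
    refine h3.trans ?_
    have h4 : (c.choose r : ℝ) * z ^ (c - r) * x ^ d * B ^ (r.choose 2) / B ^ ((r + d).choose 2)
        = (c.choose r : ℝ) * (z ^ (c - r) * x ^ d / B ^ (r * d) / B ^ (d.choose 2)) := by
      rw [choose_two_add, pow_add, pow_add]
      field_simp
    have h5 : (((T : ℝ) + 1) * z * B ^ d) ^ (c - r) * s d
        = ((T : ℝ) + 1) ^ (c - r) * (z ^ (c - r) * x ^ d / B ^ (r * d) / B ^ (d.choose 2)) := by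
      rw [hs]
      simp only
      have e1 : B ^ (c * d) = B ^ (r * d) * B ^ (d * (c - r)) := by
        rw [← pow_add]
        congr 1
        obtain ⟨k, rfl⟩ := Nat.exists_eq_add_of_le hr
        rw [Nat.add_sub_cancel_left]; ring
      rw [mul_pow, mul_pow, ← pow_mul, div_pow, ← pow_mul, e1]
      field_simp
    rw [h4, h5]
    exact mul_le_mul_of_nonneg_right h1 (by positivity)
  have hinner : ∀ r ∈ Ioc R c, ∑ v ∈ Icc r (T + 1),
      (c.choose r : ℝ) * z ^ (c - r) * x ^ (v - r) * B ^ (r.choose 2) / B ^ (v.choose 2) /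
        ((v - r).factorial : ℝ) ≤
      ∑ d ∈ range (T + 1 - R), (((T : ℝ) + 1) * z * B ^ d) ^ (c - r) * s d := by
    intro r hr
    rw [mem_Ioc] at hr
    have e : Icc r (T + 1) = Ico r (T + 2) := by
      ext v; rw [mem_Icc, mem_Ico]; omega
    rw [e, Finset.sum_Ico_eq_sum_range]
    simp only [Nat.add_sub_cancel_left]
    calc ∑ d ∈ range (T + 2 - r), (c.choose r : ℝ) * z ^ (c - r) * x ^ d * B ^ (r.choose 2) /
          B ^ ((r + d).choose 2) / (d.factorial : ℝ)
        ≤ ∑ d ∈ range (T + 2 - r), (((T : ℝ) + 1) * z * B ^ d) ^ (c - r) * s d :=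
          Finset.sum_le_sum fun d _ => hterm r hr.2 d
      _ ≤ _ := by
          apply Finset.sum_le_sum_of_subset_of_nonneg
          · apply range_subset_range.2; omega
          · intro d _ _
            exact mul_nonneg (by positivity) (hs0 d)
  have hs1 : ∀ d, s d ≤ (y * Real.exp (L * ((T - c : ℕ) : ℝ))) ^ d *
      Real.exp (-(L * (d * ((d : ℝ) - 1)) / 2)) := by
    intro d
    have e1 : Real.exp (L * ((T - c : ℕ) : ℝ)) = B ^ (T - c) := by
      rw [← hBL, ← Real.exp_nat_mul]; ring_nf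
    have e2 : Real.exp (-(L * (d * ((d : ℝ) - 1)) / 2)) = 1 / B ^ (d.choose 2) := by
      rw [← hBL, ← Real.exp_nat_mul, one_div, ← Real.exp_neg, Nat.cast_choose_two]
      congr 1; ring
    rw [e1, e2, hs]
    simp only
    rw [div_eq_mul_one_div]
    apply mul_le_mul_of_nonneg_right _ (by positivity)
    exact pow_le_pow_left₀ (by positivity) hxB d
  rw [hSF]
  obtain ⟨h, hh⟩ : ∃ h : ℕ → ℝ, h = fun d : ℕ => if d = 0 then 1 + 2 * (((T : ℝ) + 1) * z) else
    2 * ((y * Real.exp (L * ((T - c : ℕ) : ℝ))) ^ d *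
      Real.exp (-(L * ((d : ℝ) * ((d : ℝ) - 1)) / 2))) := ⟨_, rfl⟩
  have hh0 : ∀ d, 0 ≤ h d := by
    intro d
    rw [hh]; simp only
    split_ifs <;> positivity
  calc ∑ r ∈ Ioc R c, ∑ v ∈ Icc r (T + 1),
      (c.choose r : ℝ) * z ^ (c - r) * x ^ (v - r) * B ^ (r.choose 2) / B ^ (v.choose 2) /
        ((v - r).factorial : ℝ)
      ≤ ∑ r ∈ Ioc R c, ∑ d ∈ range (T + 1 - R), (((T : ℝ) + 1) * z * B ^ d) ^ (c - r) * s d :=
        Finset.sum_le_sum hinner
    _ = ∑ d ∈ range (T + 1 - R), s d * ∑ r ∈ Ioc R c, (((T : ℝ) + 1) * z * B ^ d) ^ (c - r) := by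
        rw [Finset.sum_comm]
        apply Finset.sum_congr rfl
        intro d _
        rw [Finset.mul_sum]
        apply Finset.sum_congr rfl
        intro r _
        ring
    _ ≤ ∑ d ∈ range (T + 1 - R), h d := by
        apply Finset.sum_le_sum
        intro d hd
        rw [mem_range] at hd
        have hq := hqd d (by omega)
        have hg := geo_le _ (by positivity) hq R c
        rw [hh]
        simp only
        split_ifs with h0
        · subst h0
          rw [pow_zero, mul_one] at hg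
          have e : s 0 = 1 := by rw [hs]; simp
          rw [e, one_mul, pow_zero, mul_one]
          exact hg
        · have h1 : ∑ r ∈ Ioc R c, (((T : ℝ) + 1) * z * B ^ d) ^ (c - r) ≤ 2 := by linarith
          calc s d * ∑ r ∈ Ioc R c, (((T : ℝ) + 1) * z * B ^ d) ^ (c - r)
              ≤ s d * 2 := mul_le_mul_of_nonneg_left h1 (hs0 d)
            _ ≤ _ := by
              have := hs1 d
              linarith
    _ ≤ ∑ d ∈ range (T + 2), h d := by
        apply Finset.sum_le_sum_of_subset_of_nonneg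
        · apply range_subset_range.2; omega
        · intro d _ _
          exact hh0 d
    _ = (1 + 2 * (((T : ℝ) + 1) * z)) + ∑ d ∈ Icc 1 (T + 1),
        2 * ((y * Real.exp (L * ((T - c : ℕ) : ℝ))) ^ d *
          Real.exp (-(L * (d * ((d : ℝ) - 1)) / 2))) := by
        rw [Finset.sum_range_succ', add_comm]
        congr 1
        · rw [hh]; simp
        · have e : Icc 1 (T + 1) = Ico 1 (T + 2) := by
            ext v; rw [mem_Icc, mem_Ico]; omega
          rw [e, Finset.sum_Ico_eq_sum_range, show T + 2 - 1 = T + 1 by omega]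
          apply Finset.sum_congr rfl
          intro d _
          rw [hh]
          simp only [Nat.add_eq_zero_iff, one_ne_zero, and_false, if_false]
          rw [show 1 + d = d + 1 by omega]
    _ ≤ Ps (bb p) (Real.exp 3 * N * T / n) T (T - c) + 4 * (T : ℝ) ^ 2 * (n : ℝ) ^ (a - 1) := by
        rw [Ps, ← hL, ← hy, ← Finset.mul_sum]
        have h1 : 2 * (((T : ℝ) + 1) * z) ≤ 4 * (T : ℝ) ^ 2 * (n : ℝ) ^ (a - 1) := by
          rw [hz]
          have : 0 ≤ (T : ℝ) * (n : ℝ) ^ (a - 1) := by positivity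
          nlinarith
        linarith

end Pool.Agent.Helper61.UX
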